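import Mathlib

/-!
# Regular graphs in which any `m` maximal cliques have a common vertex (MP_7cf704_co)

For every `m` there is a finite regular graph, not complete, in which every `m` maximal cliques have
a vertex in common.

Construction (described in the complement `H`): take `m + 1` complete graphs `T_a` on the vertices
`(a, i)`, `i = 0, ..., m`, replace every vertex `(a, i)` by `(m + 1) ^ m` pairwise nonadjacent copies,
and add all `(m + 1) ^ (m + 1)` functions `o` as pairwise nonadjacent vertices, `o` being joined to the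
copies of `(a, o a)` for all `a`.  Then `H` is regular of degree `(m + 1) ^ (m + 1)`.  A maximal
independent set of `H` meets at most one class `(a, i)` for each `a`, so it contains every `o` that
avoids at most one value of each coordinate; `m` of them forbid at most `m` of the `m + 1` values of
each coordinate.
-/

set_option autoImplicit false

namespace Pool.Agent.Results.MP_7cf704_co.ManyCliques

open Finset

/-- The vertices: copies `(a, i, k)` of `(a, i)`, and the functions `o`. -/
abbrev Vtx (m : ℕ) : Type :=
  (Fin (m + 1) × Fin (m + 1) × (Fin m → Fin (m + 1))) ⊕ (Fin (m + 1) → Fin (m + 1))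

/-- Adjacency in the complement graph. -/
def hAdj (m : ℕ) : Vtx m → Vtx m → Prop
  | Sum.inl x, Sum.inl y => x.1 = y.1 ∧ x.2.1 ≠ y.2.1
  | Sum.inl x, Sum.inr o => o x.1 = x.2.1
  | Sum.inr o, Sum.inl x => o x.1 = x.2.1
  | Sum.inr _, Sum.inr _ => False

instance (m : ℕ) : DecidableRel (hAdj m) := fun u v =>
  match u, v with
  | Sum.inl x, Sum.inl y => inferInstanceAs (Decidable (x.1 = y.1 ∧ x.2.1 ≠ y.2.1))
  | Sum.inl x, Sum.inr o => inferInstanceAs (Decidable (o x.1 = x.2.1))
  | Sum.inr o, Sum.inl x => inferInstanceAs (Decidable (o x.1 = x.2.1))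
  | Sum.inr _, Sum.inr _ => inferInstanceAs (Decidable False)

/-- The complement graph. -/
def H (m : ℕ) : SimpleGraph (Vtx m) where
  Adj := hAdj m
  symm := by
    constructor
    rintro (x | o) (y | p) h
    · exact ⟨h.1.symm, h.2.symm⟩
    · exact h
    · exact h
    · exact h
  loopless := by
    constructor
    rintro (x | o) h
    · exact h.2 rfl
    · exact h

instance (m : ℕ) : DecidableRel (H m).Adj := inferInstanceAs (DecidableRel (hAdj m))

theorem card_fun (m : ℕ) (a i : Fin (m + 1)) :
    ∑ o : Fin (m + 1) → Fin (m + 1), (if o a = i then 1 else 0) = (m + 1) ^ m := by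
  rw [← (Fin.insertNthEquiv (fun _ => Fin (m + 1)) a).sum_comp, Fintype.sum_prod_type]
  simp [Fin.insertNthEquiv]

theorem sum_copies (m c : ℕ) : ∑ _k : Fin m → Fin (m + 1), c = (m + 1) ^ m * c := by
  simp

theorem regular (m : ℕ) : (H m).IsRegularOfDegree ((m + 1) ^ (m + 1)) := by
  intro v
  rw [← SimpleGraph.card_neighborFinset_eq_degree, SimpleGraph.neighborFinset_eq_filter,
    Finset.card_filter, Fintype.sum_sum_type]
  rcases v with ⟨a, i, k⟩ | o
  · have h1 : ∑ x : Fin (m + 1) × Fin (m + 1) × (Fin m → Fin (m + 1)),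
        (if (H m).Adj (Sum.inl (a, i, k)) (Sum.inl x) then 1 else 0) = m * (m + 1) ^ m := by
      have : ∀ x : Fin (m + 1) × Fin (m + 1) × (Fin m → Fin (m + 1)),
          (if (H m).Adj (Sum.inl (a, i, k)) (Sum.inl x) then 1 else 0) =
          (if a = x.1 then (if i = x.2.1 then 0 else 1) else 0) := by
        intro x
        show (if (a = x.1 ∧ i ≠ x.2.1) then 1 else 0) = _
        by_cases h : a = x.1 <;> by_cases h' : i = x.2.1 <;> simp [h, h']
      rw [Finset.sum_congr rfl (fun x _ => this x), Fintype.sum_prod_type]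
      simp only [Fintype.sum_prod_type]
      rw [Finset.sum_eq_single a]
      · simp only [if_true]
        change ∑ j : Fin (m + 1), ∑ _k : Fin m → Fin (m + 1), (if i = j then 0 else 1) = _
        simp only [sum_copies]
        rw [← Finset.mul_sum]
        have : ∑ j : Fin (m + 1), (if i = j then 0 else 1) = m := by
          have h2 : ∑ j : Fin (m + 1), ((if i = j then 0 else 1) + (if i = j then 1 else 0)) =
              m + 1 := by
            rw [Finset.sum_congr rfl (g := fun _ => 1)]
            · simp
            · intro j _; split_ifs <;> rfl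
          rw [Finset.sum_add_distrib] at h2
          simpa using h2
        rw [this]
        ring
      · intro b _ hb
        simp [Ne.symm hb]
      · simp
    have h2 : ∑ x : Fin (m + 1) → Fin (m + 1),
        (if (H m).Adj (Sum.inl (a, i, k)) (Sum.inr x) then 1 else 0) = (m + 1) ^ m :=
      card_fun m a i
    rw [h1, h2]
    ring
  · have h1 : ∑ x : Fin (m + 1) × Fin (m + 1) × (Fin m → Fin (m + 1)),
        (if (H m).Adj (Sum.inr o) (Sum.inl x) then 1 else 0) = (m + 1) * (m + 1) ^ m := by
      have : ∀ x : Fin (m + 1) × Fin (m + 1) × (Fin m → Fin (m + 1)),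
          (if (H m).Adj (Sum.inr o) (Sum.inl x) then 1 else 0) =
          (if o x.1 = x.2.1 then 1 else 0) := fun x => rfl
      rw [Finset.sum_congr rfl (fun x _ => this x), Fintype.sum_prod_type]
      simp only [Fintype.sum_prod_type]
      change ∑ b : Fin (m + 1), ∑ j : Fin (m + 1), ∑ _k : Fin m → Fin (m + 1),
        (if o b = j then 1 else 0) = _
      simp only [sum_copies]
      simp
    have h2 : ∑ x : Fin (m + 1) → Fin (m + 1),
        (if (H m).Adj (Sum.inr o) (Sum.inr x) then 1 else 0) = 0 :=
      Finset.sum_eq_zero fun x _ => rfl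
    rw [h1, h2]
    ring

/-- For a clique `s` of the complement of `H` and an index `a` there is a value `i` such that all
vertices of `s` over `a` are copies of `(a, i)`. -/
theorem value (m : ℕ) (s : Set (Vtx m)) (hs : (H m)ᶜ.IsClique s) (a : Fin (m + 1)) :
    ∃ i : Fin (m + 1), ∀ j c, (Sum.inl (a, j, c) : Vtx m) ∈ s → j = i := by
  by_cases h : ∃ i c, (Sum.inl (a, i, c) : Vtx m) ∈ s
  · obtain ⟨i, c, hi⟩ := h
    refine ⟨i, fun j d hj => ?_⟩
    by_contra hne
    have hne' : (Sum.inl (a, j, d) : Vtx m) ≠ Sum.inl (a, i, c) := by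
      intro h
      apply hne
      simp only [Sum.inl.injEq, Prod.mk.injEq, true_and] at h
      exact h.1
    have := hs hj hi hne'
    rw [SimpleGraph.compl_adj] at this
    exact this.2 ⟨rfl, hne⟩
  · exact ⟨0, fun j c hj => absurd ⟨j, c, hj⟩ h⟩

/-- A maximal clique contains every function that avoids the values of the clique. -/
theorem mem_of_avoid (m : ℕ) (s : Set (Vtx m)) (hs : Maximal (H m)ᶜ.IsClique s)
    (p : Fin (m + 1) → Fin (m + 1))
    (hp : ∀ a j c, (Sum.inl (a, j, c) : Vtx m) ∈ s → j = p a) (o : Fin (m + 1) → Fin (m + 1))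
    (ho : ∀ a, o a ≠ p a) : (Sum.inr o : Vtx m) ∈ s := by
  have h1 : (H m)ᶜ.IsClique (insert (Sum.inr o) s) := by
    refine hs.prop.insert ?_
    intro v hv hne
    rw [SimpleGraph.compl_adj]
    refine ⟨hne, ?_⟩
    rcases v with ⟨a, j, c⟩ | o'
    · have := hp a j c hv
      intro h
      apply ho a
      rw [← this]
      exact h
    · intro h
      exact h
  exact hs.le_of_ge h1 (Set.subset_insert _ _) (Set.mem_insert _ _)

/-- For every `m` there is a finite regular graph, not complete, in which every `m` maximal cliques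
have a common vertex. -/
theorem result : ∀ m : ℕ, ∃ (V : Type) (_ : Fintype V) (_ : DecidableEq V) (G : SimpleGraph V)
    (_ : DecidableRel G.Adj) (d : ℕ), G.IsRegularOfDegree d ∧ G ≠ ⊤ ∧
      ∀ C : Fin m → Set V, (∀ j, Maximal G.IsClique (C j)) → (⋂ j, C j).Nonempty := by
  intro m
  refine ⟨Vtx m, inferInstance, inferInstance, (H m)ᶜ, inferInstance, _, (regular m).compl, ?_, ?_⟩
  · intro h
    have h1 : (H m)ᶜ.Adj (Sum.inl (0, 0, 0)) (Sum.inr 0) := by
      rw [h, SimpleGraph.top_adj]
      exact Sum.inl_ne_inr
    rw [SimpleGraph.compl_adj] at h1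
    exact h1.2 rfl
  · intro C hC
    choose p hp using fun j => value m (C j) (hC j).prop
    have hk : ∀ a, ∃ k : Fin (m + 1), ∀ j, p j a ≠ k := by
      intro a
      by_contra hcon
      push Not at hcon
      have := Fintype.card_le_of_surjective (fun j => p j a) (fun k => hcon k)
      simp at this
    choose k hk using hk
    refine ⟨Sum.inr k, Set.mem_iInter.2 fun j => ?_⟩
    exact mem_of_avoid m (C j) (hC j) (p j) (hp j) k fun a => (hk a j).symm

end Pool.Agent.Results.MP_7cf704_co.ManyCliques
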